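import Mathlib
import Pool.Agent.MP_344f7e_co.H51.Kernel

set_option autoImplicit false

namespace Pool.Agent.Results.MP_344f7e_co.DenseHosts

open Pool.Agent.MP_344f7e_co

theorem result :
    ∀ (X Y : Type) [Fintype X] [Fintype Y] [DecidableEq X] [DecidableEq Y] (E : Finset (X × Y)),
      (∀ x y, (x, y) ∈ E →
        2 * E.card ≤ 5 * (((Finset.univ : Finset Y).filter (fun y' => (x, y') ∈ E)).card
          * ((Finset.univ : Finset X).filter (fun x' => (x', y) ∈ E)).card)) →
      ((((Finset.univ : Finset ((Fin 5 → X) × (Fin 5 → Y))).filter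
          (fun p => ∀ i j : Fin 5, (j = i ∨ j = i + 1 ∨ j = i + 2) → (p.1 i, p.2 j) ∈ E)).card : ℕ) : ℝ)
        ≥ ((E.card : ℝ) / ((Fintype.card X : ℝ) * (Fintype.card Y : ℝ))) ^ 15
          * (Fintype.card X : ℝ) ^ 5 * (Fintype.card Y : ℝ) ^ 5 := by
  intro X Y _ _ _ _ E hd
  rcases E.eq_empty_or_nonempty with h | h
  · rw [h]
    simp
  obtain ⟨e, he⟩ := id h
  set S := (Finset.univ : Finset ((Fin 5 → X) × (Fin 5 → Y))).filter
    (fun p => ∀ i j : Fin 5, (j = i ∨ j = i + 1 ∨ j = i + 2) → (p.1 i, p.2 j) ∈ E) with hS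
  have hm : ∀ p, H86.IsHom (fun x y => (x, y) ∈ E) p → p ∈ S :=
    fun p hp => Finset.mem_filter.mpr ⟨Finset.mem_univ _, hp⟩
  have hT : (0 : ℝ) < S.card := by
    have : 0 < S.card :=
      Finset.card_pos.mpr ⟨(fun _ => e.1, fun _ => e.2), hm _ (fun _ _ _ => he)⟩
    exact_mod_cast this
  have hX : (0 : ℝ) < Fintype.card X := by exact_mod_cast Fintype.card_pos_iff.mpr ⟨e.1⟩
  have hY : (0 : ℝ) < Fintype.card Y := by exact_mod_cast Fintype.card_pos_iff.mpr ⟨e.2⟩
  have hc : (0 : ℝ) < E.card := by exact_mod_cast h.card_pos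
  have b := H51.graph_log E h
    (fun x => (((Finset.univ : Finset Y).filter (fun y' => (x, y') ∈ E)).card : ℝ))
    (fun y => (((Finset.univ : Finset X).filter (fun x' => (x', y) ∈ E)).card : ℝ))
    (fun x => by
      rw [Finset.card_filter]
      push_cast
      refine Finset.sum_congr rfl fun y _ => ?_
      by_cases k : (x, y) ∈ E
      · simp [k, H86.ind_pos]
      · simp [k, H86.ind_neg])
    (fun y => by
      rw [Finset.card_filter]
      push_cast
      refine Finset.sum_congr rfl fun x _ => ?_
      by_cases k : (x, y) ∈ E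
      · simp [k, H86.ind_pos]
      · simp [k, H86.ind_neg])
    (fun x y k => by exact_mod_cast hd x y k) S hm
  rw [ge_iff_le, ← Real.log_le_log_iff (by positivity) hT,
    Real.log_mul (by positivity) (by positivity), Real.log_mul (by positivity) (by positivity),
    Real.log_pow, Real.log_pow, Real.log_pow, Real.log_div hc.ne' (by positivity),
    Real.log_mul hX.ne' hY.ne']
  push_cast
  linarith

/-- The case of the problem: the inequality for every subset of density at least two fifths of a
finite abelian group, obtained from `result` with the edge set of pairs whose sum lies in `A`. -/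
theorem abelian_case (G : Type) [AddCommGroup G] [Fintype G] [DecidableEq G] (A : Finset G)
    (hA : (A.card : ℝ) / (Fintype.card G : ℝ) ≥ 2 / 5) :
    ((((Finset.univ : Finset ((Fin 5 → G) × (Fin 5 → G))).filter
        (fun p => ∀ i j : Fin 5, (j = i ∨ j = i + 1 ∨ j = i + 2) → p.1 i + p.2 j ∈ A)).card : ℕ) : ℝ)
      ≥ ((A.card : ℝ) / (Fintype.card G : ℝ)) ^ 15 * (Fintype.card G : ℝ) ^ 10 := by
  have hN : (0 : ℝ) < Fintype.card G := by exact_mod_cast Fintype.card_pos
  have hd : 2 * Fintype.card G ≤ 5 * A.card := by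
    rw [ge_iff_le, div_le_div_iff₀ (by norm_num) hN] at hA
    have : (2 * Fintype.card G : ℝ) ≤ 5 * A.card := by linarith
    exact_mod_cast this
  have m : ∀ x y : G, (x, y) ∈ H86.edges A ↔ x + y ∈ A := fun x y => by simp [H86.edges]
  have d1 : ∀ x : G, ((Finset.univ : Finset G).filter (fun y' => x + y' ∈ A)).card = A.card := by
    intro x
    apply Finset.card_nbij' (fun y => x + y) (fun w => w - x) <;> intro w hw <;> simp_all
  have := result G G (H86.edges A) (by
    intro x y _
    simp only [m, add_comm _ y, d1, H86.card_edges]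
    nlinarith)
  simp only [m, H86.card_edges] at this
  refine le_trans (le_of_eq ?_) this
  push_cast
  field_simp

end Pool.Agent.Results.MP_344f7e_co.DenseHosts
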