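import Mathlib
import Pool.Agent.MP_344f7e_co.H86.Dense

set_option autoImplicit false

namespace Pool.Agent.Results.MP_344f7e_co.Exponent77

open Pointwise Pool.Agent.MP_344f7e_co.H86

/-- The number of homomorphisms of `K_{5,5}` minus a Hamiltonian cycle into the bipartite graph
given by `R`: tuples with `x_i` adjacent to `y_j` whenever `j - i` is `0`, `1` or `2` mod `5`. -/
def homCount {X Y : Type} [Fintype X] [Fintype Y] (R : X → Y → Prop) [DecidableRel R] : ℕ :=
  ((Finset.univ : Finset ((Fin 5 → X) × (Fin 5 → Y))).filter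
    (fun p => ∀ i j : Fin 5, (j = i ∨ j = i + 1 ∨ j = i + 2) → R (p.1 i) (p.2 j))).card

/-- The number of edges. -/
def edgeCount {X Y : Type} [Fintype X] [Fintype Y] (R : X → Y → Prop) [DecidableRel R] : ℕ :=
  ((Finset.univ : Finset (X × Y)).filter (fun e => R e.1 e.2)).card

/-- The number of ordered pairs in `X` with a common neighbour. -/
def pairsX {X Y : Type} [Fintype X] [Fintype Y] (R : X → Y → Prop) [DecidableRel R] : ℕ :=
  ((Finset.univ : Finset (X × X)).filter (fun c => ∃ y, R c.1 y ∧ R c.2 y)).card

/-- The number of ordered pairs in `Y` with a common neighbour. -/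
def pairsY {X Y : Type} [Fintype X] [Fintype Y] (R : X → Y → Prop) [DecidableRel R] : ℕ :=
  ((Finset.univ : Finset (Y × Y)).filter (fun c => ∃ x, R x c.1 ∧ R x c.2)).card

lemma mem_hom {X Y : Type} [Fintype X] [Fintype Y] (R : X → Y → Prop) [DecidableRel R]
    (p : (Fin 5 → X) × (Fin 5 → Y)) (h : IsHom R p) :
    p ∈ (Finset.univ : Finset ((Fin 5 → X) × (Fin 5 → Y))).filter
      (fun p => ∀ i j : Fin 5, (j = i ∨ j = i + 1 ∨ j = i + 2) → R (p.1 i) (p.2 j)) :=
  Finset.mem_filter.mpr ⟨Finset.mem_univ _, h⟩

theorem result :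
    ∀ (X Y : Type) [Fintype X] [Fintype Y] (R : X → Y → Prop) [DecidableRel R],
      ((edgeCount R : ℝ) / (Fintype.card X * Fintype.card Y)) ^ ((77 : ℝ) / 5)
        * ((Fintype.card X : ℝ) ^ 2 / pairsX R) ^ ((8 : ℝ) / 5)
        * ((Fintype.card Y : ℝ) ^ 2 / pairsY R) ^ ((24 : ℝ) / 5)
        * (Fintype.card X : ℝ) ^ 5 * (Fintype.card Y : ℝ) ^ 5 ≤ homCount R := by
  intro X Y _ _ R _
  unfold edgeCount
  set S := (Finset.univ : Finset (X × Y)).filter (fun e => R e.1 e.2) with hS
  rcases S.eq_empty_or_nonempty with h | h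
  · rw [h]
    simp
  · obtain ⟨e, he⟩ := id h
    have hR : R e.1 e.2 := (Finset.mem_filter.mp he).2
    have hT : (0 : ℝ) < homCount R := by
      have : 0 < homCount R :=
        Finset.card_pos.mpr ⟨(fun _ => e.1, fun _ => e.2), mem_hom R _ (fun _ _ _ => hR)⟩
      exact_mod_cast this
    have hX : (0 : ℝ) < Fintype.card X := by exact_mod_cast Fintype.card_pos_iff.mpr ⟨e.1⟩
    have hY : (0 : ℝ) < Fintype.card Y := by exact_mod_cast Fintype.card_pos_iff.mpr ⟨e.2⟩
    have hm : (0 : ℝ) < S.card := by exact_mod_cast h.card_pos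
    have hPX : (0 : ℝ) < pairsX R := by
      have : 0 < pairsX R := Finset.card_pos.mpr
        ⟨(e.1, e.1), Finset.mem_filter.mpr ⟨Finset.mem_univ _, e.2, hR, hR⟩⟩
      exact_mod_cast this
    have hPY : (0 : ℝ) < pairsY R := by
      have : 0 < pairsY R := Finset.card_pos.mpr
        ⟨(e.2, e.2), Finset.mem_filter.mpr ⟨Finset.mem_univ _, e.1, hR, hR⟩⟩
      exact_mod_cast this
    have hE : ∀ e, (unif S h).p e ≠ 0 → R e.1 e.2 :=
      fun e he => (Finset.mem_filter.mp (unif_supp S h he)).2
    have a := bound_refl hE _ (mem_hom R)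
    have b := bound_star hE _ (mem_hom R)
    have x1 : hx (unif S h) ≤ Real.log (Fintype.card X) := (unif S h).H_le_log _
    have y1 : hy (unif S h) ≤ Real.log (Fintype.card Y) := (unif S h).H_le_log _
    have y2 : h2 (unif S h) ≤ Real.log (pairsY R) :=
      (L2 (unif S h)).H_le_log_card _ _ (fun z hz =>
        Finset.mem_filter.mpr ⟨Finset.mem_univ _, z.1.1, supp2 hE hz⟩)
    have x2 : h2x (unif S h) ≤ Real.log (pairsX R) :=
      (C2 (unif S h)).H_le_log_card _ _ (fun z hz => by
        obtain ⟨u, v, w⟩ := FD.glue_supp _ hz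
        exact Finset.mem_filter.mpr ⟨Finset.mem_univ _, z.1.2, hE _ u, by rw [w]; exact hE _ v⟩)
    rw [he_unif] at a b
    rw [← Real.log_le_log_iff (by positivity) hT, Real.log_mul (by positivity) (by positivity),
      Real.log_mul (by positivity) (by positivity), Real.log_mul (by positivity) (by positivity),
      Real.log_mul (by positivity) (by positivity), Real.log_rpow (by positivity),
      Real.log_rpow (by positivity), Real.log_rpow (by positivity),
      Real.log_div hm.ne' (by positivity), Real.log_div (by positivity) hPX.ne',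
      Real.log_div (by positivity) hPY.ne', Real.log_mul hX.ne' hY.ne', Real.log_pow,
      Real.log_pow, Real.log_pow, Real.log_pow]
    unfold homCount
    push_cast
    linarith

/-- The instance for sum graphs of finite abelian groups, in the notation of the problem. -/
theorem abelian_case (G : Type) [AddCommGroup G] [Fintype G] [DecidableEq G] (A : Finset G) :
    ((A.card : ℝ) / Fintype.card G) ^ ((77 : ℝ) / 5)
      * ((Fintype.card G : ℝ) / (A - A).card) ^ ((32 : ℝ) / 5)
      * (Fintype.card G : ℝ) ^ 10 ≤ homCount (fun x y : G => x + y ∈ A) := by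
  rcases A.eq_empty_or_nonempty with h | h
  · rw [h]
    simp
  · obtain ⟨a, ha⟩ := id h
    have hT : (0 : ℝ) < homCount (fun x y : G => x + y ∈ A) := by
      have : 0 < homCount (fun x y : G => x + y ∈ A) :=
        Finset.card_pos.mpr ⟨(fun _ => 0, fun _ => a), mem_hom (fun x y : G => x + y ∈ A) _
          (fun _ _ _ => by simpa using ha)⟩
      exact_mod_cast this
    have hN : (0 : ℝ) < Fintype.card G := by exact_mod_cast Fintype.card_pos
    have hD : (0 : ℝ) < A.card := by exact_mod_cast h.card_pos
    have hK : (0 : ℝ) < (A - A).card := by exact_mod_cast (h.sub h).card_pos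
    have b := diff_log h _ (mem_hom (fun x y : G => x + y ∈ A))
    rw [← Real.log_le_log_iff (by positivity) hT, Real.log_mul (by positivity) (by positivity),
      Real.log_mul (by positivity) (by positivity), Real.log_rpow (by positivity),
      Real.log_rpow (by positivity), Real.log_div hD.ne' hN.ne', Real.log_div hN.ne' hK.ne',
      Real.log_pow]
    unfold homCount
    push_cast
    linarith

end Pool.Agent.Results.MP_344f7e_co.Exponent77
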