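import Mathlib
import Pool.Agent.MP_344f7e_co.H47.Fin

set_option autoImplicit false

namespace Pool.Agent.Results.MP_344f7e_co.SpectralHosts

open Pool.Agent.MP_344f7e_co

theorem result :
    ∀ (X Y : Type) [Fintype X] [Fintype Y] [DecidableEq X] [DecidableEq Y] (E : Finset (X × Y))
      (p : ℝ), p = (E.card : ℝ) / ((Fintype.card X : ℝ) * (Fintype.card Y : ℝ)) →
      (∀ x, ((Finset.univ : Finset Y).filter (fun y => (x, y) ∈ E)).card * Fintype.card X
        = E.card) →
      (∀ y, ((Finset.univ : Finset X).filter (fun x => (x, y) ∈ E)).card * Fintype.card Y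
        = E.card) →
      (∀ (u : X → ℝ) (v : Y → ℝ),
        (∑ x, ∑ y, u x * ((if (x, y) ∈ E then (1 : ℝ) else 0) - p) * v y) ^ 2
          ≤ (p ^ 2 / 13) ^ 2 * (Fintype.card X : ℝ) * (Fintype.card Y : ℝ)
            * (∑ x, u x ^ 2) * (∑ y, v y ^ 2)) →
      ((((Finset.univ : Finset ((Fin 5 → X) × (Fin 5 → Y))).filter
          (fun q => ∀ i j : Fin 5, (j = i ∨ j = i + 1 ∨ j = i + 2) → (q.1 i, q.2 j) ∈ E)).card : ℕ) : ℝ)
        ≥ p ^ 15 * (Fintype.card X : ℝ) ^ 5 * (Fintype.card Y : ℝ) ^ 5 := by
  intro X Y _ _ _ _ E p hp hr hc hg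
  rcases E.eq_empty_or_nonempty with h | ⟨e, he⟩
  · rw [hp, h]
    simp
  have hX : 0 < Fintype.card X := Fintype.card_pos_iff.mpr ⟨e.1⟩
  have hY : 0 < Fintype.card Y := Fintype.card_pos_iff.mpr ⟨e.2⟩
  have m0 : (0 : ℝ) < Fintype.card X := by exact_mod_cast hX
  have n0 : (0 : ℝ) < Fintype.card Y := by exact_mod_cast hY
  have c0 : (0 : ℝ) < E.card := by exact_mod_cast Finset.card_pos.mpr ⟨e, he⟩
  have c1 : (E.card : ℝ) ≤ Fintype.card X * Fintype.card Y := by
    exact_mod_cast (Finset.card_le_univ E).trans (Fintype.card_prod X Y).le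
  have H : H47.Host (fun x y => if (x, y) ∈ E then (1 : ℝ) else 0) p
      ((p ^ 2 / 13) ^ 2 * Fintype.card X * Fintype.card Y) := by
    refine ⟨fun x y => ?_, fun x => ?_, fun y => ?_, by positivity, hg⟩
    · by_cases k : (x, y) ∈ E <;> simp [k]
    · have k := congrArg (Nat.cast : ℕ → ℝ) (hr x)
      rw [Finset.card_filter] at k
      push_cast at k
      rw [hp, ← k]
      field_simp
    · have k := congrArg (Nat.cast : ℕ → ℝ) (hc y)
      rw [Finset.card_filter] at k
      push_cast at k
      rw [hp, ← k]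
      field_simp
  refine (H.bound (by rw [hp]; positivity) (by rw [hp]; exact (div_le_one (by positivity)).2 c1)
    hX).trans (H47.count E _ H.nn H.le1 fun x y k => ?_)
  by_contra k'
  exact k (if_neg k')

/-- The case of the problem: the inequality for every subset `A` of a finite abelian group all of
whose nontrivial character sums are at most `|A| ^ 2 / (13 N)` in absolute value, obtained from
`result` with the edge set of pairs whose sum lies in `A`. -/
theorem abelian_case (G : Type) [AddCommGroup G] [Fintype G] [DecidableEq G] (A : Finset G)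
    (hA : ∀ ψ : AddChar G ℂ, ψ ≠ 0 →
      ‖∑ a ∈ A, ψ a‖ ≤ (A.card : ℝ) ^ 2 / (13 * (Fintype.card G : ℝ))) :
    ((((Finset.univ : Finset ((Fin 5 → G) × (Fin 5 → G))).filter
        (fun p => ∀ i j : Fin 5, (j = i ∨ j = i + 1 ∨ j = i + 2) → p.1 i + p.2 j ∈ A)).card : ℕ) : ℝ)
      ≥ ((A.card : ℝ) / (Fintype.card G : ℝ)) ^ 15 * (Fintype.card G : ℝ) ^ 10 := by
  have hN : (0 : ℝ) < Fintype.card G := by exact_mod_cast Fintype.card_pos
  set E : Finset (G × G) := Finset.univ.filter fun q => q.1 + q.2 ∈ A with hE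
  have m : ∀ x y : G, (x, y) ∈ E ↔ x + y ∈ A := fun x y => by simp [hE]
  have d1 : ∀ x : G, ((Finset.univ : Finset G).filter (fun y => x + y ∈ A)).card = A.card := by
    intro x
    apply Finset.card_nbij' (fun y => x + y) (fun w => w - x) <;> intro w hw <;> simp_all
  have c : E.card = A.card * Fintype.card G := by
    rw [hE, Finset.card_filter, Fintype.sum_prod_type]
    simp only [← Finset.card_filter, d1, Finset.sum_const, Finset.card_univ, smul_eq_mul, mul_comm]
  have := result G G E (A.card / Fintype.card G) (by rw [c]; push_cast; field_simp)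
    (fun x => by simp only [m, d1, c]) (fun y => by simp only [m, add_comm _ y, d1, c])
    fun u v => by
      simp only [m]
      refine (H47.gap_of_char A (by positivity) hA u v).trans (le_of_eq ?_)
      field_simp
  simp only [m] at this
  refine le_trans (le_of_eq ?_) this
  ring

end Pool.Agent.Results.MP_344f7e_co.SpectralHosts
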